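import Pool.Agent.Helper52.SM.Goals
import Pool.Agent.Helper81.CompC
import Pool.Agent.Helper81.CompL
import Pool.Agent.Helper3.DT.PTL

/-!
# SM-FAN: search for coins with the answer true (assembly)
-/

namespace Pool.Agent.Helper26.SM

open Pool.Agent.Helper81.CC Pool.Agent.Helper78.DT Pool.Agent.Helper51.ZP Pool.Agent.Helper65.CS
open Pool.Agent.Helper52.SM
open Pool.Agent.Helper78
open scoped Classical

theorem ov_nil (b : ℕ → Bool) : ov [] b = b := by
  funext v
  simp [ov, ovb]

theorem phi_nil (A : PM.Machine) (c : ℕ) (x : List Bool) :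
    phi A c x [] = (PM.acc A c x : ℝ) / 2 ^ A.m x := by
  unfold phi PM.acc
  rw [pr_eq_card]
  simp only [ov_nil]
  congr 1
  simp

theorem le_NN (A : PM.Machine) (q : ℕ) (hq : 1 ≤ q) (x : List Bool) : A.m x ≤ NN A q x := by
  unfold NN
  have h1 : (4 * (x.length + A.m x + A.T x) + 4) ^ 1 ≤ (4 * (x.length + A.m x + A.T x) + 4) ^ q :=
    Nat.pow_le_pow_right (by omega) hq
  rw [pow_one] at h1
  omega

theorem fan (hCt : CtmStmt) (hApp : ∀ c e k : ℕ, PM.Approximable c e k) (hLp : LpmStmt)
    (hFn : FnmStmt) (hPl : PlmStmt) (hBr : BrmStmt) : FanStmt := by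
  intro c e k A hFew
  have hPtl : Pool.Agent.Helper78.DT.PtlStmt := Pool.Agent.Helper3.DT.ptl
  obtain ⟨g, hg, hcnt⟩ := hCt hApp A c e (k + 4) hFew
  obtain ⟨q, L0, hq, hL⟩ := hLp A c e k g hFew hcnt
  obtain ⟨h, hh, hbf⟩ := hBr A c (2 ^ L0)
  have hm : PolyTime A.m := Pool.Agent.Helper61.DT.PT_of_comp' A.m_poly
  have hT : PolyTime A.T := Pool.Agent.Helper61.DT.PT_of_comp' A.T_poly
  have hN : PolyTime (fun x : List Bool => NN A q x) := by
    unfold NN
    fun_prop
  refine ⟨fun x => if L0 ≤ lg (NN A q x) then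
      asg (A.m x) (stM g x (A.m x) (NN A q x) (TT (lg (NN A q x)))) else h x, ?_, ?_⟩
  · have hlg : PolyTime (fun x : List Bool => lg (NN A q x)) :=
      (hPtl (List Bool) (fun x => NN A q x) (fun x => NN A q x) (fun x => NN A q x) hN hN hN).1
    have h1 := hPl g A.m (fun x => NN A q x) hg hm hN
    exact (PolyTime.itep (PolyTime.decide_le (PolyTime.const L0) hlg) h1 hh).computable
  · intro x hx
    have hlx : 0 < Nat.log 2 x.length + 2 := by omega
    have hacc : 0 < PM.acc A c x := by
      rcases Nat.eq_zero_or_pos (PM.acc A c x) with h0 | h0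
      · rw [h0, mul_zero] at hx
        have : 0 < 2 ^ A.m x := by positivity
        omega
      · exact h0
    by_cases hlg : L0 ≤ lg (NN A q x)
    · have hif : (fun x => if L0 ≤ lg (NN A q x) then
          asg (A.m x) (stM g x (A.m x) (NN A q x) (TT (lg (NN A q x)))) else h x) x =
          asg (A.m x) (stM g x (A.m x) (NN A q x) (TT (lg (NN A q x)))) := if_pos hlg
      rw [hif]
      obtain ⟨h1, h2, h3, h4, h5, h6⟩ := hL x hlg
      refine hFn A c x _ h3 h4 h5 ?_
      have hlN : (0 : ℝ) < (lg (NN A q x) : ℝ) := by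
        have : 0 < lg (NN A q x) := by unfold lg; omega
        exact_mod_cast this
      have h9 : 1 / (4 * (lg (NN A q x) : ℝ) ^ k) = 1 / (lg (NN A q x) : ℝ) ^ k / 4 := by
        field_simp
      have h10 : 0 < 1 / (lg (NN A q x) : ℝ) ^ k := by positivity
      have h11 : 1 / (lg (NN A q x) : ℝ) ^ k ≤ phi A c x [] := by
        rw [phi_nil]
        have h12 : (lg x.length : ℝ) ^ k ≤ (lg (NN A q x) : ℝ) ^ k := by
          have : (lg x.length : ℝ) ≤ (lg (NN A q x) : ℝ) := by exact_mod_cast h2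
          gcongr
        have h13 : (2 : ℝ) ^ A.m x ≤ (lg x.length : ℝ) ^ k * PM.acc A c x := by
          have : 2 ^ A.m x ≤ lg x.length ^ k * PM.acc A c x := hx
          exact_mod_cast this
        have h14 : (0 : ℝ) < 2 ^ A.m x := by positivity
        rw [div_le_div_iff₀ (by positivity) h14, one_mul]
        calc (2 : ℝ) ^ A.m x ≤ (lg x.length : ℝ) ^ k * PM.acc A c x := h13
          _ ≤ (lg (NN A q x) : ℝ) ^ k * PM.acc A c x := by gcongr
          _ = PM.acc A c x * (lg (NN A q x) : ℝ) ^ k := mul_comm _ _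
      rw [h9] at h6
      linarith
    · have hif : (fun x => if L0 ≤ lg (NN A q x) then
          asg (A.m x) (stM g x (A.m x) (NN A q x) (TT (lg (NN A q x)))) else h x) x = h x :=
        if_neg hlg
      rw [hif]
      refine hbf x ?_ ?_
      · have h1 : NN A q x < 2 ^ (Nat.log 2 (NN A q x) + 1) :=
          Nat.lt_pow_succ_log_self (by norm_num) _
        have h2 : lg (NN A q x) = Nat.log 2 (NN A q x) + 2 := rfl
        have h3 : (2 : ℕ) ^ (Nat.log 2 (NN A q x) + 1) ≤ 2 ^ L0 :=
          Nat.pow_le_pow_right (by norm_num) (by omega)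
        have h4 := le_NN A q hq x
        omega
      · obtain ⟨y, hy⟩ := (Nat.card_pos_iff.1 hacc).1
        exact ⟨y, hy⟩

end Pool.Agent.Helper26.SM
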